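import Pool.Agent.Helper92.Ru.GoalsV

/-! Packet V7: the Diophantine conclusion -/

set_option autoImplicit false

open NumberField MvPolynomial Pool.Agent.Helper92.Ru

namespace Pool.Agent.Helper52.Ru

theorem dio (hMax : MaxBad) (hUn : BadUnion) (hDis : Discr) (hSub : SubStep) : Dio := by
  classical
  intro k _ _ T d n q a C Cf ε hd hn hGP hε
  by_contra hcon
  push Not at hcon
  obtain ⟨κ, hκ⟩ : ∃ κ : ℝ, κ = 2 * d * n + ε := ⟨_, rfl⟩
  have hκ0 : 0 ≤ κ := by rw [hκ]; positivity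
  have hbad : Bad κ {P : Pt k T d n q | PtOK a C Cf P} := by
    intro C'
    obtain ⟨P, hP, hlt⟩ := hcon C'
    exact ⟨P, hP, by rw [hκ]; exact hlt⟩
  obtain ⟨Q1, hQ1, hbad1, hmax⟩ := hMax k T d n q _ κ hbad
  obtain ⟨Lam, hLam, hdis⟩ := hDis k T d n q a C Cf ε hd hn hε
  obtain ⟨mu, Q2, hQ2, hbad2, hcard, hsum, htot, hlam⟩ := hdis Q1 (fun P hP => hQ1 hP)
    (by rw [← hκ]; exact hbad1)
  rw [← hκ] at hbad2
  have hne : Q2.Nonempty := by
    obtain ⟨P, hP, -⟩ := hbad2 0
    exact ⟨P, hP⟩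
  obtain ⟨m, H0, F, hF, hcov⟩ := hSub k T d n q a C Cf hd hn hGP Lam mu hLam hcard hsum htot Q2 hne
    (fun P hP => hQ1 (hQ2 hP)) hlam
  let Fam : Option F → Set (Pt k T d n q) := fun i => match i with
    | none => {P ∈ Q2 | P.H < H0}
    | some f => {P ∈ Q2 | P.E f.1 = 0}
  have hcup : (⋃ i, Fam i) = Q2 := by
    apply Set.Subset.antisymm
    · apply Set.iUnion_subset
      rintro (_ | f)
      · exact fun P hP => hP.1
      · exact fun P hP => hP.1
    · intro P hP
      rw [Set.mem_iUnion]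
      by_cases h : H0 ≤ P.H
      · obtain ⟨f, hf, he⟩ := hcov P hP h
        exact ⟨some ⟨f, hf⟩, hP, he⟩
      · exact ⟨none, hP, not_le.1 h⟩
  obtain ⟨i, hi⟩ := hUn k T d n q κ (Option F) Fam (by rw [hcup]; exact hbad2)
  rcases i with _ | f
  · obtain ⟨P, hP, hlt⟩ := hi (q * (Real.log H0 + C))
    have hPQ : P ∈ Q2 := hP.1
    have hPH : P.H < H0 := hP.2
    have hok : PtOK a C Cf P := hQ1 (hQ2 hPQ)
    have hlog0 : 0 ≤ Real.log P.H := Real.log_nonneg hok.H_one
    have hlog : Real.log P.H ≤ Real.log H0 :=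
      Real.log_le_log (by linarith [hok.H_one]) hPH.le
    have htot' : P.tot ≤ q * (Real.log H0 + C) := by
      unfold Pt.tot
      rw [Finset.sum_comm]
      calc ∑ i, ∑ v, P.lam v i ≤ ∑ _i : Fin q, (Real.log H0 + C) := by
            apply Finset.sum_le_sum
            intro i _
            exact (hok.lam_sum i).trans (by linarith)
        _ = q * (Real.log H0 + C) := by
            rw [Finset.sum_const, Finset.card_univ, Fintype.card_fin, nsmul_eq_mul]
    have := mul_nonneg hκ0 hlog0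
    linarith
  · obtain ⟨hfR, hfJ⟩ := hF f.1 f.2
    have hsub : Fam (some f) ⊆ Q2 := fun P hP => hP.1
    have e1 : JJid (Fam (some f)) = JJid Q1 := hmax _ (hsub.trans hQ2) hi
    have e2 : JJid Q2 = JJid Q1 := hmax _ hQ2 hbad2
    apply hfJ
    rw [e2, ← e1]
    change ∀ P ∈ Fam (some f), ∀ π : Equiv.Perm (Fin d), P.E (permB k d n π f.1) = 0
    intro P hP π
    rw [hfR.2 π]
    exact hP.2

end Pool.Agent.Helper52.Ru
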