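import Pool.Agent.Helper52.Ru.EvalK

/-! Packet P9: bound at infinite places -/

set_option autoImplicit false

open NumberField MvPolynomial Pool.Agent.Helper92.Ru

namespace Pool.Agent.Helper52.Ru

/-- an extension of the embedding of an infinite place to the algebraic closure -/
theorem exists_ext {k : Type} [Field k] [NumberField k] (τ : k →+* ℂ) :
    ∃ T : AlgebraicClosure k →+* ℂ, ∀ y : k, T (algebraMap k _ y) = τ y := by
  let _ := τ.toAlgebra
  let T : AlgebraicClosure k →ₐ[k] ℂ := IsAlgClosed.lift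
  exact ⟨T, fun y => T.commutes y⟩

theorem card_AbE {k : Type} [Field k] [NumberField k] {L : Type} [Field L] [NumberField L]
    [Algebra k L] (v : InfinitePlace k) : Fintype.card (AbE L v) = Module.finrank k L := by
  let _ := v.embedding.toAlgebra
  rw [← AlgHom.card k L ℂ]
  apply Fintype.card_congr
  refine ⟨fun ρ => ⟨ρ.1, fun y => ?_⟩, fun φ => ⟨φ, ?_⟩, ?_, ?_⟩
  · exact RingHom.congr_fun ρ.2 y
  · ext y
    exact φ.commutes y
  · intro ρ
    rfl
  · intro φ
    rfl

theorem evx_eval {k : Type} [Field k] [NumberField k] {L : Type} [Field L] [NumberField L]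
    [Algebra k L] {d n : ℕ} (σ : Fin d → (L →ₐ[k] AlgebraicClosure k)) (x : Fin (n + 1) → L)
    (f : BB k d n) : evx σ x f = ∑ e ∈ f.support, algebraMap k _ (coeff e f) *
      ∏ p : Fin d × Fin (n + 1), σ p.1 (x p.2) ^ e p := by
  unfold evx
  rw [aeval_def, eval₂_eq']

theorem evalInf (hIP : InfProd) : EvalInf := by
  classical
  intro k _ _ L _ _ _ d n σ x hx v m f hf y hy
  obtain ⟨T, hT⟩ := exists_ext v.embedding
  have hvy : ∀ c : k, v c = ‖v.embedding c‖ := fun c => (InfinitePlace.norm_embedding_eq v c).symm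
  -- the sup norms
  obtain ⟨B, hB⟩ : ∃ B : Fin d → ℝ, B = fun j => ⨆ t, ‖T (σ j (x t))‖ := ⟨_, rfl⟩
  have hBle : ∀ j t, ‖T (σ j (x t))‖ ≤ B j := by
    intro j t
    rw [hB]
    exact le_ciSup (f := fun t => ‖T (σ j (x t))‖) (Set.finite_range _).bddAbove t
  have hB0 : ∀ j, 0 ≤ B j := fun j => (norm_nonneg _).trans (hBle j 0)
  have h1 : v y ≤ (∑ e ∈ f.support, v (coeff e f)) * (∏ j, B j) ^ m := by
    rw [hvy, ← hT, ← hy, evx_eval, map_sum, Finset.sum_mul]
    refine (norm_sum_le _ _).trans (Finset.sum_le_sum ?_)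
    intro e he
    rw [map_mul, map_prod, norm_mul, hT, ← hvy]
    apply mul_le_mul_of_nonneg_left _ (apply_nonneg v _)
    rw [norm_prod]
    calc ∏ p : Fin d × Fin (n + 1), ‖T (σ p.1 (x p.2) ^ e p)‖
        ≤ ∏ p : Fin d × Fin (n + 1), B p.1 ^ e p := by
          apply Finset.prod_le_prod (fun _ _ => norm_nonneg _)
          intro p _
          rw [map_pow, norm_pow]
          exact pow_le_pow_left₀ (norm_nonneg _) (hBle _ _) _
      _ = ∏ j, B j ^ m := by
          rw [Fintype.prod_prod_type]
          apply Finset.prod_congr rfl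
          intro j _
          simp only
          rw [Finset.prod_pow_eq_pow_sum, hf.1 e he j]
      _ = (∏ j, B j) ^ m := Finset.prod_pow _ _ _
  -- the bijection with the embeddings above
  let Φ : Fin d → AbE L v := fun j => ⟨T.comp (σ j : L →+* AlgebraicClosure k), by
    ext c
    simp only [RingHom.comp_apply]
    have : (σ j : L →+* AlgebraicClosure k) (algebraMap k L c) = algebraMap k _ c :=
      (σ j).commutes c
    rw [this, hT]⟩
  have hΦ : Function.Bijective Φ := by
    rw [Fintype.bijective_iff_injective_and_card]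
    constructor
    · intro i j hij
      apply σ.injective
      ext c
      apply T.injective
      exact RingHom.congr_fun (congrArg Subtype.val hij) c
    · rw [card_AbE, ← AlgHom.card k L (AlgebraicClosure k), Fintype.card_congr σ.symm]
  have h2 : (∏ j, B j) ^ v.mult = XInf x v := by
    unfold XInf
    rw [← hIP k L v (fun w => ⨆ j, w (x j)), ← Finset.prod_pow]
    rw [← (Equiv.ofBijective Φ hΦ).prod_comp]
    apply Finset.prod_congr rfl
    intro j _
    rw [hB]
    rfl
  calc v y ^ v.mult ≤ ((∑ e ∈ f.support, v (coeff e f)) * (∏ j, B j) ^ m) ^ v.mult :=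
        pow_le_pow_left₀ (apply_nonneg v y) h1 _
    _ = (∑ e ∈ f.support, v (coeff e f)) ^ v.mult * XInf x v ^ m := by
        rw [mul_pow, ← h2, ← pow_mul, ← pow_mul, mul_comm m]

end Pool.Agent.Helper52.Ru
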