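import Pool.Agent.Helper92.Ru.GoalsV

/-! Packet P7: values of symmetric forms -/

set_option autoImplicit false

open NumberField MvPolynomial Pool.Agent.Helper92.Ru

namespace Pool.Agent.Helper52.Ru

theorem evx_X {k : Type} [Field k] [NumberField k] {L : Type} [Field L] [NumberField L]
    [Algebra k L] {d n : ℕ} (σ : Fin d → (L →ₐ[k] AlgebraicClosure k)) (x : Fin (n + 1) → L)
    (p : Fin d × Fin (n + 1)) : evx σ x (X p) = σ p.1 (x p.2) := by
  unfold evx
  rw [aeval_X]

theorem evalK : EvalK := by
  classical
  intro k _ _ L _ _ _ d n σ x
  constructor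
  · intro m f hf
    have hgal : IsGalois k (AlgebraicClosure k) := inferInstance
    have hfix : ∀ τ : AlgebraicClosure k ≃ₐ[k] AlgebraicClosure k,
        τ (evx σ x f) = evx σ x f := by
      intro τ
      let g : Fin d → Fin d := fun j => σ.symm ((τ : AlgebraicClosure k →ₐ[k] _).comp (σ j))
      have hg : Function.Injective g := by
        intro i j hij
        have h1 := σ.symm.injective hij
        have h2 : σ i = σ j := by
          ext y
          have := DFunLike.congr_fun h1 y
          simp only [AlgHom.comp_apply] at this
          exact τ.injective this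
        exact σ.injective h2
      let π : Equiv.Perm (Fin d) := Equiv.ofBijective g (Finite.injective_iff_bijective.1 hg)
      have hπ : ∀ j, σ (π j) = (τ : AlgebraicClosure k →ₐ[k] _).comp (σ j) := by
        intro j
        change σ (σ.symm _) = _
        rw [Equiv.apply_symm_apply]
      have h1 : (τ : AlgebraicClosure k →ₐ[k] AlgebraicClosure k).comp (evx σ x)
          = (evx σ x).comp (permB k d n π) := by
        apply MvPolynomial.algHom_ext
        intro p
        simp only [AlgHom.comp_apply, evx_X, permB, rename_X]
        rw [hπ]
        rfl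
      have h2 := DFunLike.congr_fun h1 f
      simp only [AlgHom.comp_apply] at h2
      rw [hf.2 π] at h2
      exact h2
    have hmem : evx σ x f ∈ (⊥ : IntermediateField k (AlgebraicClosure k)) :=
      (InfiniteGalois.mem_bot_iff_fixed _).2 hfix
    obtain ⟨y, hy⟩ := IntermediateField.mem_bot.1 hmem
    exact ⟨y, hy.symm⟩
  · intro a
    rw [Algebra.norm_eq_prod_embeddings k (AlgebraicClosure k)]
    unfold Nl
    rw [map_prod, ← Equiv.prod_comp σ]
    apply Finset.prod_congr rfl
    intro j _
    rw [map_sum, map_sum]
    apply Finset.sum_congr rfl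
    intro t _
    rw [map_mul, map_mul, evx_X, AlgHom.commutes]
    congr 1
    unfold evx
    rw [aeval_C]

end Pool.Agent.Helper52.Ru
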